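import Pool.Agent.helper86.NF.SpecC

set_option autoImplicit false

open Complex MeasureTheory

namespace Pool.Agent.NF

open Pool.Agent.helper84.DM Pool.Agent.helper78.ED Pool.Agent.DH Pool.Agent.ZD

theorem NLD_pow (N : ℝ) (hN : 0 < N) (k : ℕ) (y : ℝ) : N ^ k * N ^ y = N ^ ((k : ℝ) + y) := by
  rw [Real.rpow_add hN, Real.rpow_natCast]

theorem NLD : NLD_stmt := by
  intro T N σ hT h1 h2 hN1 hN2
  have hT0 : 0 < T := by linarith
  have hN0 : 0 < N := lt_of_lt_of_le (Real.rpow_pos_of_pos hT0 _) hN1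
  -- first term
  have e1 : T ^ (3 / 4 : ℝ) * N ^ (4 : ℕ) * N ^ (-(6 * σ)) ≤ T ^ (9 / 4 * (1 - σ)) := by
    rw [mul_assoc, NLD_pow N hN0]
    have hz : ((4 : ℕ) : ℝ) + -(6 * σ) ≤ 0 := by
      push_cast
      linarith
    have h3 := Real.rpow_le_rpow_of_nonpos (Real.rpow_pos_of_pos hT0 (3 / 8)) hN1 hz
    rw [← Real.rpow_mul hT0.le] at h3
    calc T ^ (3 / 4 : ℝ) * N ^ (((4 : ℕ) : ℝ) + -(6 * σ))
        ≤ T ^ (3 / 4 : ℝ) * T ^ (3 / 8 * (((4 : ℕ) : ℝ) + -(6 * σ))) :=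
          mul_le_mul_of_nonneg_left h3 (Real.rpow_nonneg hT0.le _)
      _ = T ^ (3 / 4 + 3 / 8 * (((4 : ℕ) : ℝ) + -(6 * σ))) := (Real.rpow_add hT0 _ _).symm
      _ = T ^ (9 / 4 * (1 - σ)) := by
          congr 1
          push_cast
          ring
  have e2 : T * N ^ (4 : ℕ) * N ^ (-(7 * σ)) ≤ T ^ (9 / 4 * (1 - σ)) := by
    rw [mul_assoc, NLD_pow N hN0]
    have hz : ((4 : ℕ) : ℝ) + -(7 * σ) ≤ 0 := by
      push_cast
      linarith
    have h3 := Real.rpow_le_rpow_of_nonpos (Real.rpow_pos_of_pos hT0 (3 / 8)) hN1 hz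
    rw [← Real.rpow_mul hT0.le] at h3
    calc T * N ^ (((4 : ℕ) : ℝ) + -(7 * σ))
        ≤ T * T ^ (3 / 8 * (((4 : ℕ) : ℝ) + -(7 * σ))) :=
          mul_le_mul_of_nonneg_left h3 hT0.le
      _ = T ^ (1 + 3 / 8 * (((4 : ℕ) : ℝ) + -(7 * σ))) := by
          rw [Real.rpow_add hT0, Real.rpow_one]
      _ ≤ T ^ (9 / 4 * (1 - σ)) := by
          apply Real.rpow_le_rpow_of_exponent_le hT
          push_cast
          linarith
  have e3 : T ^ (1 / 2 : ℝ) * N ^ (3 : ℕ) * N ^ (-(4 * σ)) ≤ T ^ (9 / 4 * (1 - σ)) := by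
    rw [mul_assoc, NLD_pow N hN0]
    have hz : 0 ≤ ((3 : ℕ) : ℝ) + -(4 * σ) := by
      push_cast
      linarith
    have h3 := Real.rpow_le_rpow hN0.le hN2 hz
    rw [← Real.rpow_mul hT0.le] at h3
    calc T ^ (1 / 2 : ℝ) * N ^ (((3 : ℕ) : ℝ) + -(4 * σ))
        ≤ T ^ (1 / 2 : ℝ) * T ^ (1 / 2 * (((3 : ℕ) : ℝ) + -(4 * σ))) :=
          mul_le_mul_of_nonneg_left h3 (Real.rpow_nonneg hT0.le _)
      _ = T ^ (1 / 2 + 1 / 2 * (((3 : ℕ) : ℝ) + -(4 * σ))) := (Real.rpow_add hT0 _ _).symm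
      _ ≤ T ^ (9 / 4 * (1 - σ)) := by
          apply Real.rpow_le_rpow_of_exponent_le hT
          push_cast
          linarith
  linarith

end Pool.Agent.NF
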